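import Pool.Agent.Helper77.SUBK.SheetP

/-! Project SUBK, row COEFM (port of COEF). -/

set_option autoImplicit false

namespace Pool.Agent.Helper28.SUBK

open Finset Matrix Pool.Agent.Helper70.SUB Pool.Agent.Helper77.SUBK

theorem cM_mulVec {M : Type} [Field M] {N : ℕ} (B : Matrix (Fin N) (Fin N) ℤ) (z : Fin N → ℤ) :
    (cM (B.mulVec z) : Fin N → M) = (mM M B).mulVec (cM z) := by
  funext i
  simp [cM, Matrix.mulVec, dotProduct]

theorem COEFM : ST_COEFM := by
  intro M _ _ S P N A s C B lam hS hA hs hB z μ hz k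
  have hn : (none : Option ℕ) ∈ plc S := mem_none
  have hdet : IsUnit (A none * mM M B).det := by
    rw [Matrix.det_mul]
    have h1 := hA none hn
    have h2 : (mM M B).det ≠ 0 := by
      rw [mM_det]
      exact_mod_cast hB.det_ne
    exact (mul_ne_zero h1 h2).isUnit
  have key : (cM z : Fin N → M) =
      ((A none * mM M B)⁻¹).mulVec ((A none).mulVec (cM (B.mulVec z))) := by
    rw [cM_mulVec, Matrix.mulVec_mulVec _ (A none), Matrix.mulVec_mulVec, Matrix.nonsing_inv_mul _ hdet,
      Matrix.one_mulVec]
  have hk : (z k : M) = ∑ i, ((A none * mM M B)⁻¹) k i * (A none).mulVec (cM (B.mulVec z)) i := by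
    have := congrFun key k
    simpa [cM, Matrix.mulVec, dotProduct] using this
  have hzk : P.nv none (z k : M) = |(z k : ℝ)| := by
    rw [P.intCast hn]
    simp [av]
  have hlam := hB.pos k
  have hterm : ∀ i, P.nv none (((A none * mM M B)⁻¹) k i *
      (A none).mulVec (cM (B.mulVec z)) i) * lam k ≤ C * μ := by
    intro i
    have h1 := hB.inf_inv k i
    have h2 := hz i
    have hsi := hs none hn i
    have hμ : 0 ≤ μ := by
      have h3 := (P.nn _ _).trans h2
      by_contra hc
      push Not at hc
      nlinarith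
    rw [P.mul none hn]
    calc P.nv none (((A none * mM M B)⁻¹) k i) * P.nv none ((A none).mulVec (cM (B.mulVec z)) i)
          * lam k
        ≤ P.nv none (((A none * mM M B)⁻¹) k i) * (μ * s none i) * lam k := by
          apply mul_le_mul_of_nonneg_right _ hlam.le
          exact mul_le_mul_of_nonneg_left h2 (P.nn _ _)
      _ = (P.nv none (((A none * mM M B)⁻¹) k i) * (lam k * s none i)) * μ := by ring
      _ ≤ C * μ := mul_le_mul_of_nonneg_right h1 hμ
  rw [← hzk, hk]
  calc P.nv none (∑ i, ((A none * mM M B)⁻¹) k i * (A none).mulVec (cM (B.mulVec z)) i) * lam k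
      ≤ (∑ i, P.nv none (((A none * mM M B)⁻¹) k i *
          (A none).mulVec (cM (B.mulVec z)) i)) * lam k :=
        mul_le_mul_of_nonneg_right (P.sum_le hn _ _) hlam.le
    _ = ∑ i, P.nv none (((A none * mM M B)⁻¹) k i *
          (A none).mulVec (cM (B.mulVec z)) i) * lam k := by rw [Finset.sum_mul]
    _ ≤ ∑ i : Fin N, C * μ := Finset.sum_le_sum (fun i _ => hterm i)
    _ = N * C * μ := by rw [Finset.sum_const, Finset.card_univ, Fintype.card_fin, nsmul_eq_mul]; ring

end Pool.Agent.Helper28.SUBK
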